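import Mathlib
import Pool.Agent.X217.CCTop
import Pool.Agent.Helper257.ForceCH

/-!
# Countably compact topological hyperextensions exist under CH (MP_f4378e_lc)
-/

namespace Pool.Agent.Results.MP_f4378e_lc.ConsistentlyExists

open Set Cardinal
open Pool.Agent.Helper257.ForceCH (OmegaOnePreserved CHHolds)

/-- The space `Y` is (through `emb` and `star`) a topological hyperextension of `X`. -/
structure Hyperextension (X Y : Type) [TopologicalSpace Y] where
  /-- the inclusion of `X` in `Y` -/
  emb : X → Y
  /-- the extension of functions -/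
  star : (X → X) → (Y → Y)
  t1 : T1Space Y
  emb_injective : Function.Injective emb
  dense : Dense (Set.range emb)
  discrete : DiscreteTopology (Set.range emb)
  star_emb : ∀ f x, star f (emb x) = emb (f x)
  star_cont : ∀ f, Continuous (star f)
  comp : ∀ f g : X → X, star g ∘ star f = star (g ∘ f)
  idon : ∀ (f : X → X) (A : Set X), (∀ x ∈ A, f x = x) → ∀ ξ ∈ closure (emb '' A), star f ξ = ξ
  analytic : ∀ f g : X → X, (∀ x, f x ≠ g x) ↔ ∀ ξ, star f ξ ≠ star g ξ
  pairs : ∃ p q : X → X, ∀ ξ η : Y, ∃ ζ : Y, star p ζ = ξ ∧ star q ζ = η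

/-- Countably compact spaces: Hausdorff, and every countable open cover has a finite subcover. -/
def CountablyCompact (Y : Type) [TopologicalSpace Y] : Prop :=
  T2Space Y ∧ ∀ U : ℕ → Set Y, (∀ n, IsOpen (U n)) → ⋃ n, U n = Set.univ →
    ∃ N, ⋃ n ∈ Finset.range N, U n = Set.univ

open Pool.Agent.X217.CC Pool.Agent.X217.CCTop

/-- The hyperextension carried by a good set of ultrafilters. -/
noncomputable def mk (T : Set BN) (hT : GoodSet T) : @Hyperextension ℕ T (top T) :=
  let _ : TopologicalSpace T := top T
  { emb := fun n => ⟨pure n, hT.princ n⟩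
    star := fun f u => ⟨u.1.map f, hT.img u.1 u.2 f⟩
    t1 := by
      have := t2 T
      infer_instance
    emb_injective := fun a b h => Ultrafilter.pure_injective (congrArg Subtype.val h)
    dense := by
      intro u
      rw [mem_closure_iff]
      intro U hU hu
      obtain ⟨A, hA, hAU⟩ := exists_basic hU hu
      obtain ⟨n, hn⟩ := u.1.nonempty_of_mem hA
      exact ⟨⟨pure n, hT.princ n⟩, hAU hn, n, rfl⟩
    discrete := by
      rw [discreteTopology_subtype_iff']
      rintro _ ⟨n, rfl⟩
      refine ⟨hat T {n}, isOpen_hat T {n}, ?_⟩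
      ext u
      constructor
      · rintro ⟨hu, m, rfl⟩
        have h1 : m ∈ ({n} : Set ℕ) := hu
        rw [Set.mem_singleton_iff] at h1
        rw [h1]
        rfl
      · intro hu
        have hu' : u = ⟨pure n, hT.princ n⟩ := hu
        rw [hu']
        exact ⟨Set.mem_singleton n, n, rfl⟩
    star_emb := fun f n => Subtype.ext (Ultrafilter.map_pure f n)
    star_cont := by
      intro f
      refine continuous_generateFrom_iff.2 ?_
      rintro _ ⟨A, rfl⟩
      exact isOpen_hat T (f ⁻¹' A)
    comp := by
      intro f g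
      funext u
      exact Subtype.ext (Ultrafilter.map_map u.1 f g)
    idon := by
      intro f A hf ξ hξ
      have hA : A ∈ ξ.1 := by
        by_contra hcon
        have h1 : Aᶜ ∈ ξ.1 := (Ultrafilter.compl_mem_iff_notMem).2 hcon
        obtain ⟨_, h2, n, hn, rfl⟩ := (mem_closure_iff.1 hξ) (hat T Aᶜ) (isOpen_hat T Aᶜ) h1
        exact h2 hn
      apply Subtype.ext
      show ξ.1.map f = ξ.1
      have h1 : ξ.1.map f = ξ.1.map id := map_congr' (Filter.mem_of_superset hA fun x hx => hf x hx)
      rw [h1, Ultrafilter.map_id]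
    analytic := by
      intro f g
      constructor
      · intro h u hu
        have h1 := hT.haus u.1 u.2 f g (congrArg Subtype.val hu)
        have h2 : {n | f n = g n} = ∅ := by
          ext n
          simp [h n]
        rw [h2] at h1
        exact u.1.empty_notMem h1
      · intro h n hn
        apply h ⟨pure n, hT.princ n⟩
        apply Subtype.ext
        show (pure n : BN).map f = (pure n : BN).map g
        rw [Ultrafilter.map_pure, Ultrafilter.map_pure, hn]
    pairs := by
      refine ⟨fun n => (Nat.unpair n).1, fun n => (Nat.unpair n).2, fun u v => ?_⟩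
      obtain ⟨w, hw, h1, h2⟩ := hT.dir u.1 u.2 v.1 v.2
      exact ⟨⟨w, hw⟩, Subtype.ext h1, Subtype.ext h2⟩ }

/-- Some forcing notion forces that `ω₁` is preserved and that CH holds; and CH implies that some
infinite set `X` containing (a copy of) `ℕ`, in fact `X = ℕ`, has a countably compact
hyperextension. -/
theorem result :
    (∃ (P : Type) (_ : Preorder P), Nonempty P ∧
      ∀ p : P, p ∈ OmegaOnePreserved P ∧ p ∈ CHHolds P) ∧
    (Cardinal.aleph.{0} 1 = Cardinal.continuum →
      ∃ (Y : Type) (_ : TopologicalSpace Y) (_ : Hyperextension ℕ Y), CountablyCompact Y) := by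
  refine ⟨?_, fun hCH => ?_⟩
  · obtain ⟨P, i, hn, h⟩ := Pool.Agent.Helper257.ForceCH.exists_forcing
    exact ⟨P, i, hn, fun p => ⟨(h p).1, (h p).2.2⟩⟩
  · obtain ⟨T, hT, hne, hcc⟩ := exists_good hCH
    exact ⟨T, top T, mk T hT, t2 T, fun U hU hcov => finite_subcover hcc U hU hcov⟩

end Pool.Agent.Results.MP_f4378e_lc.ConsistentlyExists
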